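import Pool.Agent.H30.VM.Defs

/-!
# MP_70ba79_ag: targets of the board `vm_modules`, part D (height inequality)

Compare `Pool/Agent/H17/CI/TargetsD.lean` and `Pool/Agent/H17/VG/TargetsD.lean`. The operators have
symbols `X_(i c) Q_(j c)`; on the variety `∑_a ∂_a F_i (x) * (column) + ∑_b Q_b,i (x) * (column)` is
`0` for `i` in `Z`, and it is a logarithmic derivative of `F_i (x)` times `F_i (x)` for the other
`i`. In all targets `poleOrder v x` is the largest order of a pole of the coordinates of `x`; since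
`x p = 1` it is minus the smallest order of a coordinate.
-/

set_option autoImplicit false

namespace Pool.Agent.H30.VM

open MvPolynomial SC Pool.Agent.H27.LV Pool.Agent.H17.VG
open Pool.Agent.H17.CI (Tup IlT PQT TxT frmT upT RatT)

/-- GRT: at each place there is a set `A` of indices (those of the forms which vanish at the
reduction of `x`) such that a minor of the gradients has the exact order, and the forms not in `A`
do not vanish -/
def T_GRT : Prop := ∀ (k K : Type) [Field k] [IsAlgClosed k] [CharZero k] [Field K] [Algebra k K]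
  [Algebra.EssFiniteType k K], Algebra.trdeg k K = 1 → ∀ (n : ℕ) (ι : Type) [Fintype ι]
  (e : ι → ℕ) (F : Tup ι k n), (∀ i, (F i).IsHomogeneous (e i + 1)) → NCr F →
  ∀ (x : Fin (n + 1) → K) (p : Fin (n + 1)), x p = 1 → ∀ v : DV k K,
  (∀ i a, ge v (-(e i * poleOrder v x)) (eval x (pderiv a (upT K F i)))) ∧
  ∃ (A : Finset ι) (J : A → Fin (n + 1)), Function.Injective J ∧ gJ (upT K F) x J ≠ 0 ∧
    v.ord (gJ (upT K F) x J) = -((∑ i ∈ A, e i : ℕ) * poleOrder v x) ∧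
    ∀ i, i ∉ A → eval x (upT K F i) ≠ 0 ∧
      v.ord (eval x (upT K F i)) = -((e i + 1 : ℕ) * poleOrder v x)

/-- ROW: the combinations of the rows. The columns of the operators are replaced by local lifts
(column operation with the column `D x`), and the column `D x` by `D x + h (D π / π) x`, `h` the pole
order, `π` the uniformizer (column operation with the column `x`): if `x = π ^ (-h) x'` then this is
`π ^ (-h) D x'`. -/
def T_ROW : Prop := ∀ (R k K : Type) [Field R] [Field k] [IsAlgClosed k] [CharZero k] [Field K]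
  [Algebra k K] [Algebra R K] [Algebra.EssFiniteType k K], Algebra.trdeg k K = 1 →
  ∀ (n s : ℕ) (ι : Type) [Fintype ι] (i₀ : ι) (e : ι → ℕ) (F : Tup ι k n),
  (∀ i, (F i).IsHomogeneous (e i + 1)) → ∀ (D : Derivation k K K), D ≠ 0 →
  ∀ (x : Fin (n + 1) → K) (p : Fin (n + 1)), x p = 1 → ∀ (Q : Fin s → Tup ι k n) (τ : Op R K n)
    (l : ι → K) (q : Fin (n + 1)) (j : Fin s), RatT k τ l →
  Sym i₀ (upT K F) τ l (fun i => X q * upT K (Q j) i) → ∀ v : DV k K,
  (∀ a, ge v (-(poleOrder v x)) (x a)) ∧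
  (∀ a, ge v (-(poleOrder v x)) (opV τ x a - τ.1 v.unif / D v.unif * D (x a))) ∧
  (∀ a, ge v (-(poleOrder v x) + ordD v D)
    (D (x a) + (poleOrder v x : K) * (D v.unif / v.unif) * x a)) ∧
  ∀ i,
    (∑ a, eval x (pderiv a (upT K F i)) * (opV τ x a - τ.1 v.unif / D v.unif * D (x a)) +
      eval x (upT K (Q j) i) * x q = (τ.1 (eval x (upT K F i)) -
        τ.1 v.unif / D v.unif * D (eval x (upT K F i))) + l i * eval x (upT K F i)) ∧
    (∑ a, eval x (pderiv a (upT K F i)) * x a = ((e i + 1 : ℕ) : K) * eval x (upT K F i)) ∧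
    (∑ a, eval x (pderiv a (upT K F i)) *
        (D (x a) + (poleOrder v x : K) * (D v.unif / v.unif) * x a) =
      D (eval x (upT K F i)) + (poleOrder v x : K) * (D v.unif / v.unif) *
        (((e i + 1 : ℕ) : K) * eval x (upT K F i))) ∧
    (eval x (upT K F i) ≠ 0 → ge v (v.ord (eval x (upT K F i)))
      ((τ.1 (eval x (upT K F i)) - τ.1 v.unif / D v.unif * D (eval x (upT K F i))) +
        l i * eval x (upT K F i)) ∧
      ge v (v.ord (eval x (upT K F i)) - 1 + ordD v D)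
        (D (eval x (upT K F i)) + (poleOrder v x : K) * (D v.unif / v.unif) *
          (((e i + 1 : ℕ) : K) * eval x (upT K F i))) ∧
      (v.ord (eval x (upT K F i)) = -((e i + 1 : ℕ) * poleOrder v x) →
        ge v (v.ord (eval x (upT K F i)) + ordD v D)
          (D (eval x (upT K F i)) + (poleOrder v x : K) * (D v.unif / v.unif) *
            (((e i + 1 : ℕ) : K) * eval x (upT K F i)))))

/-- DBT: the estimate of the determinant, at all places, and at the places where the forms not in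
`Z` do not vanish. (Use T_ROW, T_GRT and `Pool.Agent.H17.CI.T_DET` with one more ordinary column
`x`.) -/
def T_DBT : Prop := ∀ (R k K : Type) [Field R] [Field k] [IsAlgClosed k] [CharZero k] [Field K]
  [Algebra k K] [Algebra R K] [Algebra.EssFiniteType k K], Algebra.trdeg k K = 1 →
  ∀ (n s : ℕ) (ι : Type) [Fintype ι] [DecidableEq ι] (i₀ : ι) (e : ι → ℕ) (F : Tup ι k n),
  (∀ i, (F i).IsHomogeneous (e i + 1)) → NCr F → ∀ (D : Derivation k K K), D ≠ 0 →
  ∀ (Z : Finset ι) (x : Fin (n + 1) → K) (p : Fin (n + 1)), x p = 1 →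
  (∀ i, eval x (upT K F i) = 0 ↔ i ∈ Z) →
  ∀ (Q : Fin s → Tup ι k n) (κ : Type) [Fintype κ] [DecidableEq κ] (τ : κ → Op R K n)
    (l : κ → ι → K) (i : κ → Fin (n + 1)) (j : κ → Fin s) (J : Z → Fin (n + 1))
    (e0 : (κ ⊕ Fin 2) ⊕ Z ≃ Fin (n + 1) ⊕ Fin s), (∀ c, RatT k (τ c) (l c)) →
  (∀ c, Sym i₀ (upT K F) (τ c) (l c) (fun a => X (i c) * upT K (Q (j c)) a)) →
  Function.Injective J → gJ (upT K F) x J ≠ 0 → ∀ v : DV k K,
  ge v (v.ord (gJ (upT K F) x J) + ∑ a ∈ Finset.univ \ Z, v.ord (eval x (upT K F a)) +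
      ((∑ a, (e a + 1) : ℕ) - Z.card : ℤ) * poleOrder v x - ((n : ℤ) + 1 + s - Z.card) *
        poleOrder v x - 1 + ordD v D)
    ((bigP D x τ i j J).submatrix e0 id).det ∧
  ((∀ a, a ∉ Z → v.ord (eval x (upT K F a)) = -((e a + 1 : ℕ) * poleOrder v x)) →
    ge v (v.ord (gJ (upT K F) x J) + ∑ a ∈ Finset.univ \ Z, v.ord (eval x (upT K F a)) +
        ((∑ a, (e a + 1) : ℕ) - Z.card : ℤ) * poleOrder v x - ((n : ℤ) + 1 + s - Z.card) *
          poleOrder v x + ordD v D)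
      ((bigP D x τ i j J).submatrix e0 id).det)

/-- SU4: summation over all places (compare `Pool.Agent.H17.VG.T_SU2`, `Pool.Agent.H17.CI.T_SU3`) -/
def T_SU4 : Prop := ∀ (k K : Type) [Field k] [IsAlgClosed k] [CharZero k] [Field K] [Algebra k K]
  [Algebra.EssFiniteType k K], Algebra.trdeg k K = 1 → ∀ (n : ℕ) (N d : ℤ) (D : Derivation k K K),
  D ≠ 0 → ∀ (x : Fin (n + 1) → K) (u : K), u ≠ 0 → ∀ S : Finset (DV k K),
  ∀ (κ : Type) [Fintype κ] (P : κ → K) (c0 : κ), P c0 ≠ 0 →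
  (∀ (v : DV k K) c, v ∉ S → ge v (v.ord u + d * poleOrder v x - N * poleOrder v x + ordD v D)
    (P c)) →
  (∀ (v : DV k K) c, ge v (v.ord u + d * poleOrder v x - N * poleOrder v x - 1 + ordD v D)
    (P c)) →
  (deg k (fun c => P c / P c0) : ℤ) + (d - N) * deg k x ≤ canDeg D + S.card

/-- NAT: choice of columns, first case -/
def T_NAT : Prop := ∀ (R k K : Type) [Field R] [Field k] [Field K] [CharZero K]
  [Algebra k K] [Algebra R K] (n s : ℕ) (ι : Type) [Fintype ι] [DecidableEq ι] (i₀ : ι)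
  (e : ι → ℕ) (F : Tup ι K n) (D : Derivation k K K) (D' : Derivation R K K) (Z : Finset ι)
  (x : Fin (n + 1) → K) (p : Fin (n + 1)), x p = 1 →
  SysT i₀ e F D' → (∀ z, D' z = D z) → Pt Z F D' x →
  ∀ (Q : Fin s → Tup ι K n) (τ : Fin (n + 1) → Fin s → Op R K n)
    (l : Fin (n + 1) → Fin s → ι → K),
  (∀ i j, Sym i₀ F (τ i j) (l i j) (fun a => X i * Q j a)) →
  Module.finrank K (UtT R i₀ F x (PQT x Q)) + Z.card = n + 1 →
  ∀ J : Z → Fin (n + 1), gJ F x J ≠ 0 →
  ∃ (T : Finset (Fin (n + 1) × Fin s)) (e0 : (T ⊕ Fin 2) ⊕ Z ≃ Fin (n + 1) ⊕ Fin s),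
    ((bigP D x (fun c : T => τ c.1.1 c.1.2) (fun c => c.1.1) (fun c => c.1.2) J).submatrix
      e0 id).det ≠ 0

/-- NBT: choice of columns, second case: one more family `Q s`, with two columns `a`, `b` -/
def T_NBT : Prop := ∀ (R k K : Type) [Field R] [Field k] [Field K] [CharZero K]
  [Algebra k K] [Algebra R K] (n s : ℕ) (ι : Type) [Fintype ι] [DecidableEq ι] (i₀ : ι)
  (e : ι → ℕ) (F : Tup ι K n) (D : Derivation k K K) (D' : Derivation R K K) (Z : Finset ι)
  (x : Fin (n + 1) → K) (p : Fin (n + 1)), x p = 1 →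
  SysT i₀ e F D' → (∀ z, D' z = D z) → Pt Z F D' x →
  ∀ (Q : Fin (s + 1) → Tup ι K n) (τ : Fin (n + 1) → Fin (s + 1) → Op R K n)
    (l : Fin (n + 1) → Fin (s + 1) → ι → K),
  (∀ i j, Sym i₀ F (τ i j) (l i j) (fun a => X i * Q j a)) →
  Module.finrank K (UtT R i₀ F x (PQT x fun j : Fin s => Q j.castSucc)) + Z.card = n →
  (∃ ξ : Fin (n + 1) → K, ∑ i, ξ i * x i = 0 ∧
    ∑ i, ξ i • opV (τ i (Fin.last s)) x ∉ UtT R i₀ F x (PQT x fun j : Fin s => Q j.castSucc)) →
  ∀ J : Z → Fin (n + 1), gJ F x J ≠ 0 →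
  ∃ (T : Finset (Fin (n + 1) × Fin s))
    (e0 : ((T ⊕ Fin 2) ⊕ Fin 2) ⊕ Z ≃ Fin (n + 1) ⊕ Fin (s + 1)) (y : Fin (n + 1) → K) (σ : K),
    Indep x y ∧ σ ≠ 0 ∧ ∀ a b : Fin (n + 1),
    ((bigP D x (Sum.elim (fun c : T => τ c.1.1 c.1.2.castSucc)
        (fun t : Fin 2 => τ (if t = 0 then a else b) (Fin.last s)))
      (Sum.elim (fun c => c.1.1) (fun t : Fin 2 => if t = 0 then a else b))
      (Sum.elim (fun c => c.1.2.castSucc) (fun _ => Fin.last s)) J).submatrix e0 id).det =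
      σ * (x a * y b - x b * y a)

/-- DT: the height inequality. `δ = ∑ (e i + 1) - n - 1`. -/
def T_DT : Prop := ∀ (R k K : Type) [Field R] [Field k] [IsAlgClosed k] [CharZero k] [Field K]
  [Algebra k K] [Algebra R K] [Algebra.EssFiniteType k K], Algebra.trdeg k K = 1 →
  ∀ (n s : ℕ) (ι : Type) [Fintype ι] (i₀ : ι) (e : ι → ℕ) (F : Tup ι k n),
  (∀ i, (F i).IsHomogeneous (e i + 1)) → NCr F →
  ∀ (D : Derivation k K K) (D' : Derivation R K K), D ≠ 0 → (∀ z, D' z = D z) →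
  SysT i₀ e (upT K F) D' →
  (∀ G : Tup ι k n, (∀ i, (G i).IsHomogeneous (e i + 1)) →
    ∃ (τ : Op R K n) (l : ι → K), RatT k τ l ∧ Sym i₀ (upT K F) τ l (upT K G)) →
  ∀ (Z : Finset ι) (x : Fin (n + 1) → K) (p : Fin (n + 1)), x p = 1 → Pt Z (upT K F) D' x →
  ∀ S : Finset (DV k K),
  (∀ v, v ∉ S → ∀ i, i ∉ Z → v.ord (eval x (upT K F i)) = -((e i + 1 : ℕ) * poleOrder v x)) →
  ∀ Q : Fin s → (Σ i, Mon (n + 1) (e i)) → k,
  (Module.finrank K (UtT R i₀ (upT K F) x (PQT x fun j => upT K (frmT (Q j)))) + Z.card =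
      n + 1 →
    (((∑ i, (e i + 1) : ℕ) : ℤ) - n - 1 - s) * deg k x ≤ canDeg D + S.card) ∧
  (Module.finrank K (UtT R i₀ (upT K F) x (PQT x fun j => upT K (frmT (Q j)))) + Z.card = n →
    ∀ (Q' : (Σ i, Mon (n + 1) (e i)) → k) (ξ : Fin (n + 1) → K) (τ : Op R K n) (l : ι → K),
    ∑ i, ξ i * x i = 0 → Sym i₀ (upT K F) τ l (fun i => lin ξ * upT K (frmT Q') i) →
    opV τ x ∉ UtT R i₀ (upT K F) x (PQT x fun j => upT K (frmT (Q j))) →
    ∃ (y : Fin (n + 1) → K) (a b : Fin (n + 1)), Indep x y ∧ x a * y b - x b * y a ≠ 0 ∧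
      (hln k x y a b : ℤ) + (((∑ i, (e i + 1) : ℕ) : ℤ) - n - 1 - (s + 1)) * deg k x ≤
        canDeg D + S.card)

end Pool.Agent.H30.VM
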