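import Pool.Agent.H30.VM.Defs

/-!
# MP_70ba79_ag: targets of the board `vm_modules`, part C (linear algebra)

Compare `Pool/Agent/H17/CI/TargetsC.lean`. `t` is the dimension of the variety, `t + Z.card = n`.
-/

set_option autoImplicit false

namespace Pool.Agent.H30.VM

open MvPolynomial SC Pool.Agent.H27.LV Pool.Agent.H17.VG
open Pool.Agent.H17.CI (Tup IlT PQT TxT frmT upT RatT)

/-- BIT: the bilinear map `B`: `ξ` (linear form vanishing at `x`) and `q` (coefficients of a family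
of forms of degrees `e i`) go to the velocity of the operators with symbol `lin ξ * frmT q`,
modulo `x` and `D x`. -/
def T_BIT : Prop := ∀ (R K : Type) [Field R] [Field K] [CharZero K] [Algebra R K] (n : ℕ)
  (ι : Type) [Fintype ι] (i₀ : ι) (e : ι → ℕ) (F : Tup ι K n) (D : Derivation R K K)
  (Z : Finset ι) (x : Fin (n + 1) → K), SysT i₀ e F D → Pt Z F D x →
  ∃ B : Vx x →ₗ[K] ((Σ i, Mon (n + 1) (e i)) → K) →ₗ[K]
      ((Fin (n + 1) → K) ⧸ Submodule.span K {x, fun i => D (x i)}),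
    ∀ P : Set (Vx x × ((Σ i, Mon (n + 1) (e i)) → K)),
      Module.finrank K (UtT R i₀ F x (Submodule.span K {G | ∃ p ∈ P, G = fun i =>
        lin p.1.1 * frmT p.2 i})) =
        Module.finrank K (Submodule.span K {w | ∃ p ∈ P, w = B p.1 p.2}) + 2

/-- TPT: the velocities of all operators whose symbol vanishes at `x` are the tangent vectors -/
def T_TPT : Prop := ∀ (R K : Type) [Field R] [Field K] [CharZero K] [Algebra R K] (n : ℕ)
  (ι : Type) [Fintype ι] (i₀ : ι) (e : ι → ℕ) (F : Tup ι K n) (D : Derivation R K K)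
  (Z : Finset ι) (x : Fin (n + 1) → K), i₀ ∉ Z → SysT i₀ e F D → Pt Z F D x →
  UtT R i₀ F x (Submodule.span K {G | ∃ (ξ : Fin (n + 1) → K) (q : (Σ i, Mon (n + 1) (e i)) → K),
    ∑ i, ξ i * x i = 0 ∧ G = fun i => lin ξ * frmT q i}) = TxT Z F x

/-- STT: the steps. `δ = ∑ (e i + 1) - n - 1`. -/
def T_STT : Prop := ∀ (R k K : Type) [Field R] [Field k] [Field K] [CharZero k] [CharZero K]
  [Algebra k K] [Algebra R K] (n : ℕ) (ι : Type) [Fintype ι] (i₀ : ι) (e : ι → ℕ)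
  (F : Tup ι K n) (D : Derivation R K K) (Z : Finset ι) (x : Fin (n + 1) → K), i₀ ∉ Z →
  Z.card < n → 3 * n + 2 ≤ 2 * ∑ i, (e i + 1) + Z.card → SysT i₀ e F D → Pt Z F D x →
  (∀ y : Fin (n + 1) → K, Indep x y → ¬ Exc e Z F x y) →
  ∃ Q : Fin (∑ i, (e i + 1) - n - 2) → (Σ i, Mon (n + 1) (e i)) → k,
    n ≤ Module.finrank K (UtT R i₀ F x (PQT x fun j => upT K (frmT (Q j)))) + Z.card

/-- SMT: one more step, with a monomial -/
def T_SMT : Prop := ∀ (R k K : Type) [Field R] [Field k] [Field K] [CharZero K]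
  [Algebra k K] [Algebra R K] (n s : ℕ) (ι : Type) [Fintype ι] (i₀ : ι) (e : ι → ℕ)
  (F : Tup ι K n) (D : Derivation R K K) (Z : Finset ι) (x : Fin (n + 1) → K), i₀ ∉ Z →
  SysT i₀ e F D → Pt Z F D x →
  ∀ Q : Fin s → (Σ i, Mon (n + 1) (e i)) → k,
  Module.finrank K (UtT R i₀ F x (PQT x fun j => upT K (frmT (Q j)))) + Z.card = n →
  ∃ Q' : (Σ i, Mon (n + 1) (e i)) → k, ∃ (ξ : Fin (n + 1) → K) (τ : Op R K n) (l : ι → K),
    ∑ i, ξ i * x i = 0 ∧ Sym i₀ F τ l (fun i => lin ξ * upT K (frmT Q') i) ∧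
    opV τ x ∉ UtT R i₀ F x (PQT x fun j => upT K (frmT (Q j)))

end Pool.Agent.H30.VM
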