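import Pool.Agent.H30.VM.Defs
import Pool.Agent.H17.CI.TargetsG
import Pool.Agent.H17.CI.TargetsX

/-!
# MP_70ba79_ag: targets of the board `vm_modules`, part G (generic families) and part X (the
exceptional set)

Compare `Pool/Agent/H17/CI/TargetsG.lean` and `Pool/Agent/H17/CI/TargetsX.lean`; the targets
`T_FDT`, `T_DXT`, `T_KDT`, `T_XDD`, `T_NZT`, `T_GPT`, `T_XEL`, `T_NST` there are used as they are.
-/

set_option autoImplicit false

namespace Pool.Agent.H30.VM

open MvPolynomial SC Pool.Agent.H27.LV Pool.Agent.H17.VG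
open Pool.Agent.H17.CI (Tup IlT PQT TxT frmT upT RatT)

/-- NC: a generic family has normal crossings. Let `∑ λ_i ∂_a F_i (z) = 0` for all `a`,
`F_i (z) = 0`. Apply a derivation with `∂ c = g`, use `G_i (z) + ∑ ∂_l F_i (z) ∂ z_l = 0`:
`∑ λ_i G_i (z) = 0`; take `G` with one component a power of a coordinate. -/
def T_NC : Prop := ∀ (k : Type) [Field k] [CharZero k] (n : ℕ) (ι : Type) [Fintype ι]
  (e : ι → ℕ) (c : (Σ i, Mon (n + 1) (e i + 1)) → k), AlgebraicIndependent ℚ c → NCr (frmT c)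

/-- HA: products of linear forms have no infinitesimal automorphisms. Some family of forms over
the rational numbers of degrees `e i + 1` has no operator with symbol zero, if
`n + 2 ≤ ∑ (e i + 1)`: products of the different linear forms `X 0, …, X n, ∑ X q`,
`X 1 + m X 0` (`m ≥ 2`). Every factor is an eigenvector of `A`, so `A` is a multiple of the
identity, and by Euler and `l i₀ = 0` it is `0`. -/
def T_HA : Prop := ∀ (n : ℕ) (ι : Type) [Fintype ι] (i₀ : ι) (e : ι → ℕ), 1 ≤ n →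
  n + 2 ≤ ∑ i, (e i + 1) →
  ∃ c : (Σ i, Mon (n + 1) (e i + 1)) → ℚ, ∀ (A : Matrix (Fin (n + 1)) (Fin (n + 1)) ℚ)
    (l : ι → ℚ), l i₀ = 0 → (∀ i, ∑ a, (∑ b, C (A a b) * X b) * pderiv a (frmT c i) +
      C (l i) * frmT c i = 0) → A = 0 ∧ l = 0

/-- FET: the same for a generic family (some maximal minor of the matrix of this linear map is not
zero for the family of T_HA, so it is a nonzero polynomial in the coefficients `c`) -/
def T_FET : Prop := ∀ (k : Type) [Field k] [CharZero k] (n : ℕ) (ι : Type) [Fintype ι] (i₀ : ι)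
  (e : ι → ℕ) (c : (Σ i, Mon (n + 1) (e i + 1)) → k), 1 ≤ n → n + 2 ≤ ∑ i, (e i + 1) →
  AlgebraicIndependent ℚ c → ∀ (A : Matrix (Fin (n + 1)) (Fin (n + 1)) k)
    (l : ι → k), l i₀ = 0 → (∀ i, ∑ a, (∑ b, C (A a b) * X b) * pderiv a (frmT c i) +
      C (l i) * frmT c i = 0) → A = 0 ∧ l = 0

/-- BST: unique decomposition of a family of forms over all extensions `K` of `k`; `P` is a set of
monomials which form a basis of the space of families modulo the symbols of matrices and scalings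
(linear algebra over `k`) -/
def T_BST : Prop := ∀ (k : Type) [Field k] [CharZero k] (n : ℕ) (ι : Type) [Fintype ι] (i₀ : ι)
  (e : ι → ℕ) (c : (Σ i, Mon (n + 1) (e i + 1)) → k),
  (∀ (A : Matrix (Fin (n + 1)) (Fin (n + 1)) k) (l : ι → k), l i₀ = 0 →
    (∀ i, ∑ a, (∑ b, C (A a b) * X b) * pderiv a (frmT c i) + C (l i) * frmT c i = 0) →
    A = 0 ∧ l = 0) →
  ∃ P : (Σ i, Mon (n + 1) (e i + 1)) → Prop, ∀ (K : Type) [Field K] [Algebra k K],
  (∀ G : Tup ι K n, (∀ i, (G i).IsHomogeneous (e i + 1)) →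
    ∃ (g : (Σ i, Mon (n + 1) (e i + 1)) → K) (A : Matrix (Fin (n + 1)) (Fin (n + 1)) K)
      (l : ι → K), (∀ M, ¬ P M → g M = 0) ∧ l i₀ = 0 ∧ ∀ i,
      G i = frmT g i + ∑ a, (∑ b, C (A a b) * X b) * pderiv a (upT K (frmT c) i) +
        C (l i) * upT K (frmT c) i) ∧
  ∀ (g : (Σ i, Mon (n + 1) (e i + 1)) → K) (A : Matrix (Fin (n + 1)) (Fin (n + 1)) K)
    (l : ι → K), (∀ M, ¬ P M → g M = 0) → l i₀ = 0 →
    (∀ i, frmT g i + ∑ a, (∑ b, C (A a b) * X b) * pderiv a (upT K (frmT c) i) +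
      C (l i) * upT K (frmT c) i = 0) → g = 0 ∧ A = 0 ∧ l = 0

/-- GT: the system of a generic family -/
def T_GT : Prop := ∀ (k : Type) [Field k] [IsAlgClosed k] [CharZero k] (n : ℕ) (ι : Type)
  [Fintype ι] (i₀ : ι) (e : ι → ℕ) (c : (Σ i, Mon (n + 1) (e i + 1)) → k), 1 ≤ n →
  n + 2 ≤ ∑ i, (e i + 1) → AlgebraicIndependent ℚ c →
  ∃ R : IntermediateField ℚ k, ∀ (K : Type) [Field K] [Algebra k K] [Algebra.EssFiniteType k K],
  Algebra.trdeg k K = 1 → ∀ D : Derivation k K K, D ≠ 0 →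
  ∃ D' : Derivation R K K, (∀ z, D' z = D z) ∧ SysT i₀ e (upT K (frmT c)) D' ∧
    ∀ G : Tup ι k n, (∀ i, (G i).IsHomogeneous (e i + 1)) →
      ∃ (τ : Op R K n) (l : ι → K), RatT k τ l ∧ Sym i₀ (upT K (frmT c)) τ l (upT K G)

/-- XMT: no exceptional lines through general points: dimension count. With `θ` of
`Pool.Agent.H17.CI.T_XDD` (`θ c = g`, `θ x_b = 0` for `b` in `B`) applied to the identities: for
every family `G` the restrictions `G_i (x + T y)` are combinations of `card Z` (`θ x_a`, `a` not in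
`B`) `+ (n + 1)` (`θ y_a`; the directions of `x` and `y` give the same as `θ α`, `θ β`, `θ F_i (x)`:
see below) `+ 2 + card (complement of Z)` (`θ α`, `θ β`, `θ F_i (x)`) families, with two relations
(changing `y` to `y + s x` and to `s y` changes only `α`, `β`), but the space of the restrictions
has dimension `∑ (e i + 2)`; so `∑ (e i + 2) ≤ card ι + n + 1`. -/
def T_XMT : Prop := ∀ (k L : Type) [Field k] [CharZero k] [Field L] [Algebra k L] (n : ℕ)
  (ι : Type) [Fintype ι] (e : ι → ℕ) (Z : Finset ι)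
  (c : (Σ i, Mon (n + 1) (e i + 1)) → k), n + 2 ≤ ∑ i, (e i + 1) →
  AlgebraicIndependent ℚ c → ∀ (x y : Fin (n + 1) → L) (B : Finset (Fin n)), x 0 = 1 →
  AlgebraicIndependent k (fun b : B => x b.1.succ) → B.card + Z.card = n → Indep x y →
  ∀ (α β : L) (a b : ι → ℕ), (∀ i, i ∉ Z → a i + b i = e i + 1) →
  (∀ i ∈ Z, res x y (upT L (frmT c) i) = 0) →
  (∀ i, i ∉ Z → res x y (upT L (frmT c) i) = Polynomial.C (eval x (upT L (frmT c) i)) *
    (1 + Polynomial.C α * Polynomial.X) ^ a i * (1 + Polynomial.C β * Polynomial.X) ^ b i) → False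

/-- XPO: the exceptional lines through `(1, x)` and `(0, y)`, `y q = 1`, with exponents `a`, `b` are
given by polynomial equations in `x`, `y`, `α`, `β` -/
def T_XPO : Prop := ∀ (k : Type) [Field k] (n : ℕ) (ι : Type) [Fintype ι] (F : Tup ι k n)
  (Z : Finset ι) (q : Fin n) (a b : ι → ℕ),
  ∃ I : Set (MvPolynomial (Fin n ⊕ (Fin n ⊕ Fin 2)) k), ∀ (K : Type) [Field K] [Algebra k K]
    (x y : Fin n → K) (α : Fin 2 → K), (∀ f ∈ I, aeval (Sum.elim x (Sum.elim y α)) f = 0) ↔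
      y q = 1 ∧ (∀ i ∈ Z, res (Fin.cons 1 x : Fin (n + 1) → K) (Fin.cons 0 y) (upT K F i) = 0) ∧
      ∀ i, i ∉ Z → res (Fin.cons 1 x : Fin (n + 1) → K) (Fin.cons 0 y) (upT K F i) =
        Polynomial.C (eval (Fin.cons 1 x : Fin (n + 1) → K) (upT K F i)) *
          (1 + Polynomial.C (α 0) * Polynomial.X) ^ a i *
          (1 + Polynomial.C (α 1) * Polynomial.X) ^ b i

/-- NFT: exceptional lines do not depend on the choice of the points:
`F (c x + T (s y + t x)) = F (c x) (1 + α' T) ^ a (1 + β' T) ^ b` with `α' = (t + s α) / c`,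
`β' = (t + s β) / c` -/
def T_NFT : Prop := ∀ (K : Type) [Field K] (n : ℕ) (ι : Type) (e : ι → ℕ) (Z : Finset ι)
  (F : Tup ι K n) (x y : Fin (n + 1) → K) (c s t : K), (∀ i, (F i).IsHomogeneous (e i + 1)) →
  c ≠ 0 → s ≠ 0 → Exc e Z F x y → Exc e Z F (c • x) (s • y + t • x)

/-- XFT: the exceptional lines do not cover the variety. In the chart `x 0 = 1` as in
`Pool.Agent.H17.CI.T_XFT` (the exponents are at most `e i + 1`; product of the polynomials of
`T_XEL` for the point of `T_GPT`; use T_XMT over the field of T_XEL), then homogenise and multiply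
by `X 0`. -/
def T_XFT : Prop := ∀ (k : Type) [Field k] [IsAlgClosed k] [CharZero k] (n : ℕ) (ι : Type)
  [Fintype ι] (e : ι → ℕ) (Z : Finset ι) (c : (Σ i, Mon (n + 1) (e i + 1)) → k), Z.card ≤ n →
  n + 2 ≤ ∑ i, (e i + 1) → AlgebraicIndependent ℚ c →
  ∃ (Φ : MvPolynomial (Fin (n + 1)) k) (m : ℕ), Φ.IsHomogeneous m ∧
  (∃ x : Fin (n + 1) → k, (∀ i, eval x (frmT c i) = 0 ↔ i ∈ Z) ∧ eval x Φ ≠ 0) ∧
  ∀ (K : Type) [Field K] [Algebra k K] (x y : Fin (n + 1) → K), Indep x y →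
    (∀ i, eval x (upT K (frmT c) i) = 0 ↔ i ∈ Z) → Exc e Z (upT K (frmT c)) x y →
    eval x (up K Φ) = 0

end Pool.Agent.H30.VM
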