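import Pool.Agent.H30.VM.TargetsG

/-!
# MP_70ba79_ag: targets of the board `vm_modules`, part F (main theorem)

Compare `Pool/Agent/H17/CI/TargetsF.lean` and `Pool/Agent/H17/VG/TargetsF.lean`.
-/

set_option autoImplicit false

namespace Pool.Agent.H30.VM

open MvPolynomial SC Pool.Agent.H27.LV Pool.Agent.H17.VG
open Pool.Agent.H17.CI (Tup IlT PQT TxT frmT upT RatT)

/-- ALT: the alternative: bounded height, or a line of small height -/
def T_ALT : Prop := ∀ (k : Type) [Field k] [IsAlgClosed k] [CharZero k] (n : ℕ) (ι : Type)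
  [Fintype ι] (i₀ : ι) (e : ι → ℕ) (Z : Finset ι) (c : (Σ i, Mon (n + 1) (e i + 1)) → k),
  i₀ ∉ Z → Z.card < n → 3 * n + 2 ≤ 2 * ∑ i, (e i + 1) + Z.card → AlgebraicIndependent ℚ c →
  ∀ (K : Type) [Field K] [Algebra k K] [Algebra.EssFiniteType k K], Algebra.trdeg k K = 1 →
  ∀ (D : Derivation k K K), D ≠ 0 → ∀ (x : Fin (n + 1) → K) (p : Fin (n + 1)), x p = 1 →
  (∃ j, x j ∉ Set.range (algebraMap k K)) → (∀ i, eval x (upT K (frmT c) i) = 0 ↔ i ∈ Z) →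
  (∀ y : Fin (n + 1) → K, Indep x y → ¬ Exc e Z (upT K (frmT c)) x y) →
  ∀ S : Finset (DV k K),
  (∀ v, v ∉ S → ∀ i, i ∉ Z → v.ord (eval x (upT K (frmT c) i)) =
    -((e i + 1 : ℕ) * poleOrder v x)) →
  (deg k x : ℤ) ≤ canDeg D + S.card ∨
  ∃ (y : Fin (n + 1) → K) (a b : Fin (n + 1)), Indep x y ∧ x a * y b - x b * y a ≠ 0 ∧
    (hln k x y a b : ℤ) ≤ canDeg D + S.card

/-- ROT: points of a line of small height which are zeros of a form. (Exchange the coordinates `0`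
and `p`, replace `y` by `y - y 0 x`, and use `Pool.Agent.H17.CI.T_ROT`.) -/
def T_ROT : Prop := ∀ n d : ℕ, ∃ C : ℕ, ∀ (k K : Type) [Field k] [IsAlgClosed k] [CharZero k]
  [Field K] [Algebra k K] [Algebra.EssFiniteType k K], Algebra.trdeg k K = 1 →
  ∀ (F : MvPolynomial (Fin (n + 1)) k), F.IsHomogeneous d →
  ∀ (x y : Fin (n + 1) → K) (p a b : Fin (n + 1)), x p = 1 → Indep x y →
  x a * y b - x b * y a ≠ 0 → eval x (up K F) = 0 → res x y (up K F) ≠ 0 →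
  (deg k x : ℤ) ≤ C * hln k x y a b

/-- TRT: a line which is not exceptional: some equation of the variety is not zero on it, or the
boundary meets it in at least three points -/
def T_TRT : Prop := ∀ (K : Type) [Field K] [CharZero K] (n : ℕ) (ι : Type) [Fintype ι]
  [DecidableEq ι] (e : ι → ℕ) (Z : Finset ι) (F : Tup ι K n) (x y : Fin (n + 1) → K),
  (∀ i, (F i).IsHomogeneous (e i + 1)) → Indep x y →
  (∀ i, eval x (F i) = 0 ↔ i ∈ Z) → ¬ Exc e Z F x y →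
  (∃ i ∈ Z, res x y (F i) ≠ 0) ∨
  ¬ TwoRoots (∑ i ∈ Finset.univ \ Z, (e i + 1)) (∏ i ∈ Finset.univ \ Z, F i) x y

/-- MNT: the main theorem, in homogeneous coordinates -/
def T_MNT : Prop := ∀ (n : ℕ) (ι : Type) [Fintype ι] (i₀ : ι) (e : ι → ℕ) (Z : Finset ι),
  i₀ ∉ Z → Z.card < n → 3 * n + 2 ≤ 2 * ∑ i, (e i + 1) + Z.card → ∃ C : ℕ,
  ∀ (k : Type) [Field k] [IsAlgClosed k] [CharZero k] (c : (Σ i, Mon (n + 1) (e i + 1)) → k),
  AlgebraicIndependent ℚ c → ∀ (K : Type) [Field K] [Algebra k K] [Algebra.EssFiniteType k K],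
  Algebra.trdeg k K = 1 → ∀ (D : Derivation k K K), D ≠ 0 →
  ∀ (x : Fin (n + 1) → K) (p : Fin (n + 1)), x p = 1 →
  (∃ j, x j ∉ Set.range (algebraMap k K)) → (∀ i, eval x (upT K (frmT c) i) = 0 ↔ i ∈ Z) →
  (∀ y : Fin (n + 1) → K, Indep x y → ¬ Exc e Z (upT K (frmT c)) x y) →
  ∀ S : Finset (DV k K),
  (∀ v, v ∉ S → ∀ i, i ∉ Z → v.ord (eval x (upT K (frmT c) i)) =
    -((e i + 1 : ℕ) * poleOrder v x)) →
  (deg k x : ℤ) ≤ C * (canDeg D + S.card)

/-- degree of the boundary -/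
def dgB {ι : Type} [Fintype ι] [DecidableEq ι] (e : ι → ℕ) (Z : Finset ι) : ℕ :=
  ∑ i ∈ Finset.univ \ Z, (e i + 1)

/-- equation of the boundary: the product of the `F i`, `i` not in `Z` -/
noncomputable def bnd {k : Type} [Field k] {n : ℕ} {ι : Type} [Fintype ι] [DecidableEq ι]
    {e : ι → ℕ} (Z : Finset ι) (c : (Σ i, Mon (n + 1) (e i + 1)) → k) :
    MvPolynomial (Fin (n + 1)) k := ∏ i ∈ Finset.univ \ Z, frmT c i

/-- The equations of the variety `X`: `F i = 0` for `i` in `Z`, `F i ≠ 0` for the other `i`, in its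
embedding in affine space by the functions `y_M = X ^ M / G`, `G` the product of the `F i`, `i` not
in `Z`, and `M` the monomials of degree `deg G`: all polynomials in the `y_M` which vanish at all
points of `X`. -/
def eqsP {k : Type} [Field k] {n : ℕ} {ι : Type} [Fintype ι] [DecidableEq ι] {e : ι → ℕ}
    (Z : Finset ι) (c : (Σ i, Mon (n + 1) (e i + 1)) → k) :
    Set (MvPolynomial (Mon (n + 1) (dgB e Z)) k) :=
  {g | ∀ x : Fin (n + 1) → k, (∀ i, eval x (frmT c i) = 0 ↔ i ∈ Z) →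
    eval (fun M : Mon (n + 1) (dgB e Z) => (∏ a, x a ^ M.1 a) / eval x (bnd Z c)) g = 0}

/-- `z` is the point of `X` with the homogeneous coordinates `x` -/
def IsPt {k : Type} [Field k] {n : ℕ} {ι : Type} [Fintype ι] [DecidableEq ι] {e : ι → ℕ}
    (Z : Finset ι) (c : (Σ i, Mon (n + 1) (e i + 1)) → k) {K : Type} [Field K] [Algebra k K]
    (z : Mon (n + 1) (dgB e Z) → K) (x : Fin (n + 1) → K) : Prop :=
  (∃ p, x p = 1) ∧ (∀ i, eval x (upT K (frmT c) i) = 0 ↔ i ∈ Z) ∧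
    ∀ M : Mon (n + 1) (dgB e Z), z M = (∏ a, x a ^ M.1 a) / eval x (up K (bnd Z c))

/-- the point `z` of `X` lies on an exceptional line -/
def excP {k : Type} [Field k] {n : ℕ} {ι : Type} [Fintype ι] [DecidableEq ι] {e : ι → ℕ}
    (Z : Finset ι) (c : (Σ i, Mon (n + 1) (e i + 1)) → k) (K : Type) [Field K] [Algebra k K]
    (z : Mon (n + 1) (dgB e Z) → K) : Prop :=
  ∃ x y : Fin (n + 1) → K, IsPt Z c z x ∧ Indep x y ∧ Exc e Z (upT K (frmT c)) x y

/-- PTA: points over `K` of the equations of `X`. The Veronese equations, `G (y) = 1` and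
`F i ^ deg G` (a polynomial of degree `e i + 1` in the `y_M`) for `i` in `Z` are in `eqsP`. -/
def T_PTA : Prop := ∀ (k K : Type) [Field k] [Field K] [Algebra k K] (n : ℕ)
  (ι : Type) [Fintype ι] [DecidableEq ι] (i₀ : ι) (e : ι → ℕ) (Z : Finset ι)
  (c : (Σ i, Mon (n + 1) (e i + 1)) → k), i₀ ∉ Z → ∀ z : Mon (n + 1) (dgB e Z) → K,
  (∀ g ∈ eqsP Z c, aeval z g = 0) → ∃ x, IsPt Z c z x

/-- PTB: the converse: Nullstellensatz (`Pool.Agent.H17.CI.T_NST` for the `n + 1` homogeneous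
coordinates) -/
def T_PTB : Prop := ∀ (k K : Type) [Field k] [IsAlgClosed k] [Field K] [Algebra k K] (n : ℕ)
  (ι : Type) [Fintype ι] [DecidableEq ι] (e : ι → ℕ) (Z : Finset ι)
  (c : (Σ i, Mon (n + 1) (e i + 1)) → k) (z : Mon (n + 1) (dgB e Z) → K)
  (x : Fin (n + 1) → K), IsPt Z c z x → ∀ g ∈ eqsP Z c, aeval z g = 0

/-- VDP: degrees, regularity and constants in terms of `x` -/
def T_VDP : Prop := ∀ (k K : Type) [Field k] [IsAlgClosed k] [CharZero k] [Field K] [Algebra k K]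
  [Algebra.EssFiniteType k K], Algebra.trdeg k K = 1 → ∀ (n : ℕ) (ι : Type) [Fintype ι]
  [DecidableEq ι] (i₀ : ι) (e : ι → ℕ) (Z : Finset ι) (c : (Σ i, Mon (n + 1) (e i + 1)) → k)
  (z : Mon (n + 1) (dgB e Z) → K) (x : Fin (n + 1) → K), i₀ ∉ Z → IsPt Z c z x →
  (∀ v : DV k K, (∀ M, 0 ≤ v.ord (z M)) → ∀ i, i ∉ Z →
    v.ord (eval x (upT K (frmT c) i)) = -((e i + 1 : ℕ) * poleOrder v x)) ∧
  deg k z = dgB e Z * deg k x ∧
  ((∃ M, z M ∉ Set.range (algebraMap k K)) → ∃ j, x j ∉ Set.range (algebraMap k K))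

/-- PSP: a form in the homogeneous coordinates as a polynomial in the `y_M` (the power `Φ ^ deg G`,
compare `Pool/Agent/H17/VG/PSI.lean`) -/
def T_PSP : Prop := ∀ (k : Type) [Field k] (n : ℕ) (ι : Type) [Fintype ι]
  [DecidableEq ι] (i₀ : ι) (e : ι → ℕ) (Z : Finset ι) (c : (Σ i, Mon (n + 1) (e i + 1)) → k),
  i₀ ∉ Z → ∀ (Φ : MvPolynomial (Fin (n + 1)) k) (m : ℕ), Φ.IsHomogeneous m →
  ∃ Ψ : MvPolynomial (Mon (n + 1) (dgB e Z)) k, ∀ (K : Type) [Field K] [Algebra k K]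
    (z : Mon (n + 1) (dgB e Z) → K) (x : Fin (n + 1) → K), IsPt Z c z x →
    (aeval z Ψ = 0 ↔ eval x (up K Φ) = 0)

/-- FIP: Q1 for very general log complete intersections in projective space -/
def T_FIP : Prop := ∀ (n : ℕ) (ι : Type) [Fintype ι] [DecidableEq ι] (e : ι → ℕ)
  (Z : Finset ι), Z ≠ Finset.univ → Z.card < n → 3 * n + 2 ≤ 2 * ∑ i, (e i + 1) + Z.card →
  ∃ C : ℕ, ∀ (k : Type) [Field k] [IsAlgClosed k] [CharZero k]
  (c : (Σ i, Mon (n + 1) (e i + 1)) → k), AlgebraicIndependent ℚ c →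
  DegreeBoundOff k (eqsP Z c) (excP Z c) (fun χ => C * χ) ∧
  (∃ Ψ : MvPolynomial (Mon (n + 1) (dgB e Z)) k,
    (∃ z : Mon (n + 1) (dgB e Z) → k, (∀ g ∈ eqsP Z c, aeval z g = 0) ∧ aeval z Ψ ≠ 0) ∧
    ∀ (K : Type) [Field K] [Algebra k K] (z : Mon (n + 1) (dgB e Z) → K), excP Z c K z →
      aeval z Ψ = 0) ∧
  ∀ (K : Type) [Field K] [Algebra k K] (z : Mon (n + 1) (dgB e Z) → K),
    (∀ g ∈ eqsP Z c, aeval z g = 0) ↔ ∃ x, IsPt Z c z x

end Pool.Agent.H30.VM
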