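import Pool.Agent.H30.VM.Defs

/-!
# MP_70ba79_ag: targets of the board `vm_modules`, part B (bracket lemma)

Compare `Pool/Agent/H17/CI/TargetsB.lean` and `Pool/Agent/H17/VG/TargetsB.lean`.
-/

set_option autoImplicit false

namespace Pool.Agent.H30.VM

open MvPolynomial SC Pool.Agent.H27.LV Pool.Agent.H17.VG
open Pool.Agent.H17.CI (Tup IlT PQT TxT frmT upT RatT)

/-- SY: symbols are linear in the operator, and homogeneous -/
def T_SY : Prop := ∀ (R K : Type) [Field R] [Field K] [Algebra R K] (n : ℕ) (ι : Type) (i₀ : ι)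
  (e : ι → ℕ) (F : Tup ι K n) (τ τ' : Op R K n) (l l' : ι → K) (G G' : Tup ι K n) (a b : K),
  (∀ i, (F i).IsHomogeneous (e i + 1)) → Sym i₀ F τ l G → Sym i₀ F τ' l' G' →
  Sym i₀ F (a • τ + b • τ') (a • l + b • l') (a • G + b • G') ∧
  ∀ i, (G i).IsHomogeneous (e i + 1)

/-- WDT: operators with the same symbol differ by a multiple of `D` -/
def T_WDT : Prop := ∀ (R K : Type) [Field R] [Field K] [Algebra R K] (n : ℕ) (ι : Type) (i₀ : ι)
  (e : ι → ℕ) (F : Tup ι K n) (D : Derivation R K K), SysT i₀ e F D →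
  ∀ (τ τ' : Op R K n) (l l' : ι → K) (G : Tup ι K n), Sym i₀ F τ l G → Sym i₀ F τ' l' G →
  ∃ c : K, ∀ z : Fin (n + 1) → K, opV τ z = opV τ' z + c • fun i => D (z i)

/-- EVT: velocities are tangent vectors -/
def T_EVT : Prop := ∀ (R K : Type) [Field R] [Field K] [CharZero K] [Algebra R K] (n : ℕ)
  (ι : Type) (i₀ : ι) (e : ι → ℕ) (F : Tup ι K n) (D : Derivation R K K) (Z : Finset ι)
  (x : Fin (n + 1) → K), SysT i₀ e F D → Pt Z F D x →
  (∀ (τ : Op R K n) (l : ι → K) (G : Tup ι K n), Sym i₀ F τ l G →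
    (∀ i, τ.1 (eval x (F i)) = eval x (G i) - l i * eval x (F i) +
      eval x (dir (opV τ x) (F i))) ∧
    ((∀ i ∈ Z, eval x (G i) = 0) → opV τ x ∈ TxT Z F x)) ∧
  x ∈ TxT Z F x ∧ (fun i => D (x i)) ∈ TxT Z F x ∧
  Module.finrank K (TxT Z F x) + Z.card = n + 1 ∧
  ∀ W : Submodule K (Tup ι K n), (∀ G ∈ W, ∀ i ∈ Z, eval x (G i) = 0) →
    UtT R i₀ F x W ≤ TxT Z F x

/-- SUT: every tangent vector is, up to a multiple of `x`, a velocity of an operator whose symbol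
vanishes at `x`. Operator `(0, A)`; first choose the multiple of `x` for the index `i₀`, then the
scalings for the other `i` not in `Z`. -/
def T_SUT : Prop := ∀ (R K : Type) [Field R] [Field K] [CharZero K] [Algebra R K] (n : ℕ)
  (ι : Type) (i₀ : ι) (e : ι → ℕ) (F : Tup ι K n) (D : Derivation R K K) (Z : Finset ι)
  (x : Fin (n + 1) → K), i₀ ∉ Z → SysT i₀ e F D → Pt Z F D x → ∀ w ∈ TxT Z F x,
  ∃ (τ : Op R K n) (l : ι → K) (G : Tup ι K n) (c : K), Sym i₀ F τ l G ∧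
    (∀ i, eval x (G i) = 0) ∧ opV τ x = w + c • x

/-- PST: codimension of `YlT` (`ψ : P ↦ opV τ x` mod `UtT (IlT)` is well defined by T_IL, onto the
tangent space by T_SUT); membership is as in the definition -/
def T_PST : Prop := ∀ (R K : Type) [Field R] [Field K] [CharZero K] [Algebra R K] (n : ℕ)
  (ι : Type) [Fintype ι] (i₀ : ι) (e : ι → ℕ) (F : Tup ι K n) (D : Derivation R K K)
  (Z : Finset ι) (x y : Fin (n + 1) → K), i₀ ∉ Z → SysT i₀ e F D → Pt Z F D x → Indep x y →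
  ∀ m : ℕ, Module.finrank K (UtT R i₀ F x (IlT e x y)) + m + Z.card = n + 1 →
  (∀ P ∈ YlT R i₀ e F x y (UtT R i₀ F x (IlT e x y)), (∀ i, (P i).natDegree ≤ e i) ∧
    ∃ (τ : Op R K n) (l : ι → K) (G : Tup ι K n), Sym i₀ F τ l G ∧
      (∀ i, res x y (G i) = Polynomial.X * P i) ∧ opV τ x ∈ UtT R i₀ F x (IlT e x y)) ∧
  FiniteDimensional K (YlT R i₀ e F x y (UtT R i₀ F x (IlT e x y))) ∧
  Module.finrank K (YlT R i₀ e F x y (UtT R i₀ F x (IlT e x y))) + m ≤ ∑ i, (e i + 1)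

/-- IMT: the families `res (dir η G)`, `G` in the ideal of the line and in the image of the
operators which fix `x`, have codimension at most `dim UtT (IlT) - 2` -/
def T_IMT : Prop := ∀ (R K : Type) [Field R] [Field K] [CharZero K] [Algebra R K] (n : ℕ)
  (ι : Type) [Fintype ι] (i₀ : ι) (e : ι → ℕ) (F : Tup ι K n) (D : Derivation R K K)
  (Z : Finset ι) (x y η : Fin (n + 1) → K), SysT i₀ e F D → Pt Z F D x → Indep x y →
  η ∉ Submodule.span K {x, y} → ∀ Y : Submodule K (ι → Polynomial K), FiniteDimensional K Y →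
  (∀ G ∈ IlT e x y, ∀ (τ : Op R K n) (l : ι → K) (a : K), Sym i₀ F τ l G → opV τ x = a • x →
    (fun i => res x y (dir η (G i))) ∈ Y) →
  ∑ i, (e i + 1) + 2 ≤ Module.finrank K Y + Module.finrank K (UtT R i₀ F x (IlT e x y))

/-- IQT: the same for the families `Q` with `lin ξ * Q` in the image of the operators which fix
`x` -/
def T_IQT : Prop := ∀ (R K : Type) [Field R] [Field K] [CharZero K] [Algebra R K] (n : ℕ)
  (ι : Type) [Fintype ι] (i₀ : ι) (e : ι → ℕ) (F : Tup ι K n) (D : Derivation R K K)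
  (Z : Finset ι) (x y ξ : Fin (n + 1) → K), SysT i₀ e F D → Pt Z F D x → Indep x y →
  ∑ i, ξ i * x i = 0 → ∑ i, ξ i * y i = 0 → ∀ Y : Submodule K (ι → Polynomial K),
  FiniteDimensional K Y →
  (∀ Q : Tup ι K n, (∀ i, (Q i).IsHomogeneous (e i)) → ∀ (τ : Op R K n) (l : ι → K) (a : K),
    Sym i₀ F τ l (fun i => lin ξ * Q i) → opV τ x = a • x → (fun i => res x y (Q i)) ∈ Y) →
  ∑ i, (e i + 1) + 2 ≤ Module.finrank K Y + Module.finrank K (UtT R i₀ F x (IlT e x y))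

/-- KYT: the computation with brackets. The scalings of the bracket are `θ l' - θ' l`. -/
def T_KYT : Prop := ∀ (R K : Type) [Field R] [Field K] [CharZero K] [Algebra R K] (n : ℕ)
  (ι : Type) (i₀ : ι) (e : ι → ℕ) (F : Tup ι K n) (D : Derivation R K K)
  (x y ξ : Fin (n + 1) → K), SysT i₀ e F D → ∑ i, ξ i * x i = 0 → ∑ i, ξ i * y i = 0 →
  ∀ (Q G : Tup ι K n) (τ τ' : Op R K n) (l l' : ι → K) (a a' : K),
  (∀ i, (Q i).IsHomogeneous (e i)) → Sym i₀ F τ' l' (fun i => lin ξ * Q i) →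
  opV τ' x = a' • x → Sym i₀ F τ l G → (∀ i, res x y (G i) = 0) → opV τ x = a • x →
  (∃ b : K, opV (brk τ τ') x = b • x) ∧
  ∃ (l'' : ι → K) (G'' : Tup ι K n), Sym i₀ F (brk τ τ') l'' G'' ∧ ∀ i,
    res x y (G'' i) = Polynomial.X * (res x y (dir (opV τ' y) (G i)) -
      Polynomial.C (∑ i, ξ i * opV τ y i) * res x y (Q i))

/-- ETT: the line is fixed -/
def T_ETT : Prop := ∀ (R K : Type) [Field R] [Field K] [CharZero K] [Algebra R K] (n : ℕ)
  (ι : Type) [Fintype ι] (i₀ : ι) (e : ι → ℕ) (F : Tup ι K n) (D : Derivation R K K)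
  (Z : Finset ι) (x y ξ : Fin (n + 1) → K), i₀ ∉ Z → SysT i₀ e F D → Pt Z F D x → Indep x y →
  ∀ m : ℕ, Module.finrank K (UtT R i₀ F x (IlT e x y)) + m + Z.card = n + 1 →
  n + 1 ≤ 2 * m + Z.card → ∑ i, ξ i * x i = 0 → ∑ i, ξ i * y i = 0 →
  ∀ (Q : Tup ι K n) (τ : Op R K n) (l : ι → K) (a : K), (∀ i, (Q i).IsHomogeneous (e i)) →
  Sym i₀ F τ l (fun i => lin ξ * Q i) → opV τ x = a • x → opV τ y ∈ Submodule.span K {x, y}

/-- JYT: the families `res (dir w F)` are in `YlT` -/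
def T_JYT : Prop := ∀ (R K : Type) [Field R] [Field K] [CharZero K] [Algebra R K] (n : ℕ)
  (ι : Type) [Fintype ι] (i₀ : ι) (e : ι → ℕ) (F : Tup ι K n) (D : Derivation R K K)
  (Z : Finset ι) (x y w : Fin (n + 1) → K), SysT i₀ e F D → Pt Z F D x → Indep x y →
  (fun i => res x y (dir w (F i))) ∈ YlT R i₀ e F x y (UtT R i₀ F x (IlT e x y))

/-- RLT: no relations -/
def T_RLT : Prop := ∀ (R K : Type) [Field R] [Field K] [CharZero K] [Algebra R K] (n : ℕ)
  (ι : Type) [Fintype ι] (i₀ : ι) (e : ι → ℕ) (F : Tup ι K n) (D : Derivation R K K)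
  (Z : Finset ι) (x y w : Fin (n + 1) → K), i₀ ∉ Z → SysT i₀ e F D → Pt Z F D x → Indep x y →
  ∀ m : ℕ, Module.finrank K (UtT R i₀ F x (IlT e x y)) + m + Z.card = n + 1 →
  n + 1 ≤ 2 * m + Z.card → (∀ i, res x y (dir w (F i)) = 0) → w ∈ Submodule.span K {x, y}

/-- DGT: degenerate restrictions are exceptional: let `w = s x + t y`, `P` the restriction of `F i`;
`(t - s T) P' = - s (e i + 1) P`, so `P = F i (x) (1 - (s / t) T) ^ (e i + 1)` (`t = 0` is
impossible, see `i₀`) -/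
def T_DGT : Prop := ∀ (K : Type) [Field K] [CharZero K] (n : ℕ) (ι : Type) (i₀ : ι) (e : ι → ℕ)
  (F : Tup ι K n) (Z : Finset ι) (x y w : Fin (n + 1) → K), i₀ ∉ Z →
  (∀ i, (F i).IsHomogeneous (e i + 1)) → (∀ i, eval x (F i) = 0 ↔ i ∈ Z) →
  Indep x y → ¬ Exc e Z F x y → w ∈ Submodule.span K {x, y} →
  (∀ i, res x y (dir w (F i)) = 0) → w = 0

/-- BT: the main lemma -/
def T_BT : Prop := ∀ (R K : Type) [Field R] [Field K] [CharZero K] [Algebra R K] (n : ℕ)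
  (ι : Type) [Fintype ι] (i₀ : ι) (e : ι → ℕ) (F : Tup ι K n) (D : Derivation R K K)
  (Z : Finset ι) (x y : Fin (n + 1) → K), i₀ ∉ Z → SysT i₀ e F D → Pt Z F D x → Indep x y →
  ¬ Exc e Z F x y →
  ∀ m : ℕ, Module.finrank K (UtT R i₀ F x (IlT e x y)) + m + Z.card = n + 1 →
  n + 1 ≤ 2 * m + Z.card → m + n + 1 ≤ ∑ i, (e i + 1)

end Pool.Agent.H30.VM
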