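import Pool.Agent.H17.CI.Defs

/-!
# MP_70ba79_ag: very general log complete intersections in projective space

Common definitions of the modules of the board `vm_modules`. `F i`, `i` in a finite set `ι`, are
forms of degrees `e i + 1` in `n + 1` variables over `K`; the variety `X` in projective space is
given by `F i = 0` for `i` in `Z` and `F i ≠ 0` for `i` not in `Z`. Everything is as in
`Pool/Agent/H17/VG` (the case of one form, `Z` empty) and in `Pool/Agent/H17/CI` (the same in affine
space); symbols are families of forms, modulo multiples of the `F i`. Since the multiples of the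
identity matrix act by scalings (Euler), the scalings are normalised by `l i₀ = 0`, where `i₀` is a
fixed index (in the applications `i₀` is not in `Z`).
-/

set_option autoImplicit false

namespace Pool.Agent.H30.VM

open MvPolynomial SC Pool.Agent.H27.LV Pool.Agent.H17.VG Pool.Agent.H17.CI

section Op

variable {R K : Type} [Field R] [Field K] [Algebra R K] {n : ℕ} {ι : Type}

/-- the operator `τ` with the scalings `l`, `l i₀ = 0`, has symbol `G` -/
def Sym (i₀ : ι) (F : Tup ι K n) (τ : Op R K n) (l : ι → K) (G : Tup ι K n) : Prop :=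
  l i₀ = 0 ∧ ∀ i, opF τ (F i) + C (l i) * F i = G i

/-- `F` with its operators: all families of forms are symbols, and the only operators with symbol
zero are the multiples of `(D, 0)` -/
structure SysT (i₀ : ι) (e : ι → ℕ) (F : Tup ι K n) (D : Derivation R K K) : Prop where
  homog : ∀ i, (F i).IsHomogeneous (e i + 1)
  base : ∀ i, cD D (F i) = 0
  surj : ∀ G : Tup ι K n, (∀ i, (G i).IsHomogeneous (e i + 1)) →
    ∃ (τ : Op R K n) (l : ι → K), Sym i₀ F τ l G
  ker : ∀ (τ : Op R K n) (l : ι → K), Sym i₀ F τ l 0 → τ.2 = 0 ∧ l = 0 ∧ ∃ c : K, τ.1 = c • D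

/-- `x` is a point of the variety, not constant (with respect to `D`), where the equations have
independent gradients -/
structure Pt (Z : Finset ι) (F : Tup ι K n) (D : Derivation R K K) (x : Fin (n + 1) → K) :
    Prop where
  on : ∀ i, eval x (F i) = 0 ↔ i ∈ Z
  grad : LinearIndependent K fun i : Z => fun a : Fin (n + 1) => eval x (pderiv a (F i))
  dx : Indep x (fun i => D (x i))

/-- velocities `opV τ x` of the operators with symbol in `W`, and `x` itself -/
noncomputable def UtT (R : Type) [Field R] [Algebra R K] (i₀ : ι) (F : Tup ι K n)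
    (x : Fin (n + 1) → K) (W : Submodule K (Tup ι K n)) :
    Submodule K (Fin (n + 1) → K) :=
  Submodule.span K ({w | ∃ (τ : Op R K n) (l : ι → K), ∃ G ∈ W, Sym i₀ F τ l G ∧ w = opV τ x} ∪
    {x})

/-- Exceptional lines: the line through `x` and `y` is contained in `F i = 0`, `i` in `Z`, and the
product of the other `F i` has at most two zeros on it. -/
def Exc (e : ι → ℕ) (Z : Finset ι) (F : Tup ι K n) (x y : Fin (n + 1) → K) : Prop :=
  (∀ i ∈ Z, res x y (F i) = 0) ∧ ∃ α β : AlgebraicClosure K, ∀ i, i ∉ Z → ∃ a b : ℕ,
    a + b = e i + 1 ∧ (res x y (F i)).map (algebraMap K (AlgebraicClosure K)) =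
      Polynomial.C (algebraMap K (AlgebraicClosure K) (eval x (F i))) *
        (1 + Polynomial.C α * Polynomial.X) ^ a * (1 + Polynomial.C β * Polynomial.X) ^ b

/-- families `P` of polynomials, `P i` of degree at most `e i`, such that an operator whose symbol
restricts to `T P` has its velocity in `U` -/
noncomputable def YlT (R : Type) [Field R] [Algebra R K] (i₀ : ι) (e : ι → ℕ) (F : Tup ι K n)
    (x y : Fin (n + 1) → K) (U : Submodule K (Fin (n + 1) → K)) :
    Submodule K (ι → Polynomial K) :=
  Submodule.span K {P | (∀ i, (P i).natDegree ≤ e i) ∧ ∃ (τ : Op R K n) (l : ι → K)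
    (G : Tup ι K n), Sym i₀ F τ l G ∧ (∀ i, res x y (G i) = Polynomial.X * P i) ∧ opV τ x ∈ U}

end Op

section Rational

variable {R k K : Type} [Field R] [Field k] [Field K] [Algebra k K] [Algebra R K] {n : ℕ}
  {ι : Type}

/-- normal crossings: at every point of projective space the gradients of the forms which vanish
there are independent -/
def NCr (F : Tup ι k n) : Prop := ∀ z : Fin (n + 1) → k, z ≠ 0 → ∀ A : Finset ι,
  (∀ i ∈ A, eval z (F i) = 0) →
  LinearIndependent k fun i : A => fun a : Fin (n + 1) => eval z (pderiv a (F i))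

/-- minor of the matrix of the gradients -/
noncomputable def gJ {A : Finset ι} (F : Tup ι K n) (x : Fin (n + 1) → K)
    (J : A → Fin (n + 1)) : K :=
  letI := Classical.decEq ι
  (Matrix.of fun i i' : A => eval x (pderiv (J i') (F i))).det

/-- The matrix of the height inequality. Rows: coordinates, and one row for each of the families
`Q j`. Columns: for each `c` an operator `τ c` with symbol `X_(i c) Q_(j c)`, then the derivative
of `x`, then `x`, then for each equation of the variety a unit vector. -/
noncomputable def bigP {κ : Type} {s : ℕ} {Z : Finset ι} (D : Derivation k K K)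
    (x : Fin (n + 1) → K) (τ : κ → Op R K n) (i : κ → Fin (n + 1)) (j : κ → Fin s)
    (J : Z → Fin (n + 1)) : Matrix (Fin (n + 1) ⊕ Fin s) ((κ ⊕ Fin 2) ⊕ Z) K :=
  Matrix.of fun r c => match r, c with
    | Sum.inl a, Sum.inl (Sum.inl c) => opV (τ c) x a
    | Sum.inr b, Sum.inl (Sum.inl c) => if j c = b then x (i c) else 0
    | Sum.inl a, Sum.inl (Sum.inr t) => if t = 0 then D (x a) else x a
    | Sum.inr _, Sum.inl (Sum.inr _) => 0
    | Sum.inl a, Sum.inr z => if J z = a then 1 else 0
    | Sum.inr _, Sum.inr _ => 0

end Rational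

end Pool.Agent.H30.VM
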