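import Pool.Agent.H28.VM.TargetsR

/-!
# Square membrane (MP_71a28e_an): module PAIR

Parseval for product tests.
-/

set_option autoImplicit false

open MeasureTheory

namespace Pool.Agent.H30.VM

open Pool.Agent.H28.VM

theorem pair (hs : T_sine) : T_pair := by
  intro F₀ hF A hA g₁ g₂ hg₁ hg₂
  obtain ⟨s1, e1⟩ := hs g₁ hg₁
  obtain ⟨s2, e2⟩ := hs g₂ hg₂
  have hpi : 0 < Real.pi := Real.pi_pos
  set S : Set (ℝ × ℝ) := Set.Ioo (0 : ℝ) Real.pi ×ˢ Set.Ioo (0 : ℝ) Real.pi with hS
  have hSm : MeasurableSet S := measurableSet_Ioo.prod measurableSet_Ioo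
  have : IsFiniteMeasure (volume.restrict S) := by
    refine ⟨?_⟩
    rw [Measure.restrict_apply_univ, hS, Measure.volume_eq_prod, Measure.prod_prod]
    simp only [Real.volume_Ioo]
    exact ENNReal.mul_lt_top ENNReal.ofReal_lt_top ENNReal.ofReal_lt_top
  have hFi : Integrable F₀ (volume.restrict S) := hF.integrable (by norm_num)
  set I0 : ℝ := ∫ x in S, ‖F₀ x‖ with hI0
  have hI0n : 0 ≤ I0 := integral_nonneg (fun _ => norm_nonneg _)
  -- the basic integrable products
  have hb : ∀ (m n : ℕ) (x : ℝ × ℝ),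
      |Real.sin (((m : ℝ) + 1) * x.1) * Real.sin (((n : ℝ) + 1) * x.2)| ≤ 1 := by
    intro m n x
    rw [abs_mul]
    exact mul_le_one₀ (Real.abs_sin_le_one _) (abs_nonneg _) (Real.abs_sin_le_one _)
  have hbi : ∀ m n : ℕ, Integrable (fun x : ℝ × ℝ =>
      (Real.sin (((m : ℝ) + 1) * x.1) * Real.sin (((n : ℝ) + 1) * x.2)) * F₀ x)
      (volume.restrict S) := by
    intro m n
    refine hFi.bdd_mul (c := 1) ?_ ?_
    · refine Continuous.aestronglyMeasurable ?_
      fun_prop
    · refine Filter.Eventually.of_forall (fun x => ?_)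
      rw [Real.norm_eq_abs]; exact hb m n x
  have hbn : ∀ m n : ℕ, ∫ x in S, ‖(Real.sin (((m : ℝ) + 1) * x.1) *
      Real.sin (((n : ℝ) + 1) * x.2)) * F₀ x‖ ≤ I0 := by
    intro m n
    refine integral_mono (hbi m n).norm hFi.norm (fun x => ?_)
    simp only [norm_mul]
    have := hb m n x
    rw [abs_mul] at this
    rw [Real.norm_eq_abs, Real.norm_eq_abs]
    exact mul_le_of_le_one_left (norm_nonneg _) this
  have hAi : ∀ m n : ℕ, ∫ x in S, (Real.sin (((m : ℝ) + 1) * x.1) *
      Real.sin (((n : ℝ) + 1) * x.2)) * F₀ x = (Real.pi / 2) ^ 2 * A m n := by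
    intro m n
    rw [← hA m n]
    congr 1; ext x; ring
  have hAb : ∀ m n : ℕ, |A m n| ≤ (4 / Real.pi ^ 2) * I0 := by
    intro m n
    have h1 : |(Real.pi / 2) ^ 2 * A m n| ≤ I0 := by
      rw [← hAi m n]
      refine (norm_integral_le_integral_norm _).trans (hbn m n)
    rw [abs_mul, abs_of_nonneg (by positivity)] at h1
    have h2 : |A m n| = (4 / Real.pi ^ 2) * ((Real.pi / 2) ^ 2 * |A m n|) := by
      field_simp; ring
    rw [h2]
    exact mul_le_mul_of_nonneg_left h1 (by positivity)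
  have hprod : Summable (fun p : ℕ × ℕ => |sc g₁ p.1| * |sc g₂ p.2|) :=
    s1.mul_of_nonneg s2 (fun _ => abs_nonneg _) (fun _ => abs_nonneg _)
  refine ⟨?_, ?_⟩
  · refine Summable.of_nonneg_of_le (fun _ => abs_nonneg _) (fun p => ?_)
      (hprod.mul_right ((4 / Real.pi ^ 2) * I0))
    rw [abs_mul, abs_mul]
    exact mul_le_mul_of_nonneg_left (hAb _ _) (by positivity)
  · set F : ℕ × ℕ → ℝ × ℝ → ℝ := fun p x =>
      ((4 / Real.pi ^ 2) * (sc g₁ p.1 * sc g₂ p.2)) *
        ((Real.sin (((p.1 : ℝ) + 1) * x.1) * Real.sin (((p.2 : ℝ) + 1) * x.2)) * F₀ x) with hFdef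
    have hFint : ∀ p, Integrable (F p) (volume.restrict S) := fun p => (hbi p.1 p.2).const_mul _
    have hFsum : Summable fun p => ∫ x in S, ‖F p x‖ := by
      refine Summable.of_nonneg_of_le (fun _ => integral_nonneg (fun _ => norm_nonneg _))
        (fun p => ?_) (hprod.mul_right ((4 / Real.pi ^ 2) * I0))
      have : ∀ x, ‖F p x‖ = ((4 / Real.pi ^ 2) * (|sc g₁ p.1| * |sc g₂ p.2|)) *
          ‖(Real.sin (((p.1 : ℝ) + 1) * x.1) * Real.sin (((p.2 : ℝ) + 1) * x.2)) * F₀ x‖ := by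
        intro x
        rw [hFdef]
        simp only
        rw [norm_mul, norm_mul, norm_mul (sc g₁ p.1)]
        congr 2
        rw [Real.norm_eq_abs, abs_of_nonneg (by positivity)]
      simp_rw [this]
      rw [integral_const_mul]
      have h3 := hbn p.1 p.2
      calc (4 / Real.pi ^ 2) * (|sc g₁ p.1| * |sc g₂ p.2|) * _ ≤
          (4 / Real.pi ^ 2) * (|sc g₁ p.1| * |sc g₂ p.2|) * I0 :=
            mul_le_mul_of_nonneg_left h3 (by positivity)
        _ = _ := by ring
    have hsum := hasSum_integral_of_summable_integral_norm hFint hFsum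
    have hL : ∫ x in S, g₁ x.1 * g₂ x.2 * F₀ x = ∫ x in S, ∑' p, F p x := by
      refine setIntegral_congr_fun hSm (fun x hx => ?_)
      simp only [hFdef]
      have ht : ∀ p : ℕ × ℕ, (4 / Real.pi ^ 2) * (sc g₁ p.1 * sc g₂ p.2) *
          ((Real.sin (((p.1 : ℝ) + 1) * x.1) * Real.sin (((p.2 : ℝ) + 1) * x.2)) * F₀ x) =
          (((2 / Real.pi) * sc g₁ p.1 * Real.sin (((p.1 : ℝ) + 1) * x.1)) *
          ((2 / Real.pi) * sc g₂ p.2 * Real.sin (((p.2 : ℝ) + 1) * x.2))) * F₀ x := by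
        intro p; field_simp; ring
      simp_rw [ht]
      rw [tsum_mul_right]
      congr 1
      rw [e1 x.1 hx.1, e2 x.2 hx.2]
      have b1 : Summable (fun n : ℕ => ‖(2 / Real.pi) * sc g₁ n * Real.sin (((n : ℝ) + 1) * x.1)‖) := by
        refine Summable.of_nonneg_of_le (fun _ => norm_nonneg _) (fun n => ?_) (s1.mul_left (2 / Real.pi))
        rw [norm_mul, norm_mul, Real.norm_eq_abs, Real.norm_eq_abs, Real.norm_eq_abs,
          abs_of_nonneg (by positivity : 0 ≤ 2 / Real.pi)]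
        exact mul_le_of_le_one_right (by positivity) (Real.abs_sin_le_one _)
      have b2 : Summable (fun n : ℕ => ‖(2 / Real.pi) * sc g₂ n * Real.sin (((n : ℝ) + 1) * x.2)‖) := by
        refine Summable.of_nonneg_of_le (fun _ => norm_nonneg _) (fun n => ?_) (s2.mul_left (2 / Real.pi))
        rw [norm_mul, norm_mul, Real.norm_eq_abs, Real.norm_eq_abs, Real.norm_eq_abs,
          abs_of_nonneg (by positivity : 0 ≤ 2 / Real.pi)]
        exact mul_le_of_le_one_right (by positivity) (Real.abs_sin_le_one _)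
      exact tsum_mul_tsum_of_summable_norm b1 b2
    rw [hL, ← hsum.tsum_eq]
    congr 1; ext p
    rw [hFdef]
    simp only
    rw [integral_const_mul, hAi p.1 p.2]
    field_simp
    ring

end Pool.Agent.H30.VM
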