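import Pool.Agent.H28.VM.TargetsR

/-!
# Square membrane (MP_71a28e_an): module SINE

Absolutely convergent sine series of smooth functions supported in `(0,π)`.
-/

set_option autoImplicit false

open MeasureTheory intervalIntegral Real

namespace Pool.Agent.H30.VM

open Pool.Agent.H28.VM

/-- sine moment -/
noncomputable def sm (g : ℝ → ℝ) (a : ℝ) : ℝ := ∫ x in (0:ℝ)..Real.pi, g x * Real.sin (a * x)

theorem sc_eq (g : ℝ → ℝ) (n : ℕ) : sc g n = sm g ((n : ℝ) + 1) := by
  rw [sc, sm, intervalIntegral.integral_of_le Real.pi_pos.le, integral_Ioc_eq_integral_Ioo]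

theorem sm_neg (g : ℝ → ℝ) (a : ℝ) : sm g (-a) = - sm g a := by
  rw [sm, sm, ← intervalIntegral.integral_neg]
  congr 1; ext x; rw [neg_mul, Real.sin_neg]; ring

theorem smz {g : ℝ → ℝ} (hg : Sm Real.pi g) {x : ℝ} (hx : x ∉ Set.Ioo 0 Real.pi) : g x = 0 := by
  by_contra h
  exact hx (hg.supp (subset_tsupport g h))

/-- smooth functions on the line supported in `(0,π)`: derivatives have the same property -/
theorem smd {g : ℝ → ℝ} (hg : Sm Real.pi g) : Sm Real.pi (deriv g) := by
  refine ⟨?_, ?_, ?_⟩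
  · have := hg.smooth
    have h2 : ContDiff ℝ (((⊤ : ℕ∞) : WithTop ℕ∞) + 1) g := by simpa using this
    exact (contDiff_succ_iff_deriv.mp h2).2.2
  · exact hg.compact.deriv
  · exact (tsupport_deriv_subset).trans hg.supp

theorem smh {g : ℝ → ℝ} (hg : Sm Real.pi g) (x : ℝ) : HasDerivAt g (deriv g x) x :=
  ((hg.smooth.differentiable (by simp)) x).hasDerivAt

theorem smc {g : ℝ → ℝ} (hg : Sm Real.pi g) : Continuous g := hg.smooth.continuous

theorem sm_parts {g : ℝ → ℝ} (hg : Sm Real.pi g) {a : ℝ} (ha : a ≠ 0) :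
    sm g a = - (1 / a ^ 2) * sm (deriv (deriv g)) a := by
  have h1 : ∫ x in (0:ℝ)..Real.pi, deriv g x * Real.cos (a * x) =
      - (1 / a) * sm (deriv (deriv g)) a := by
    have hp := intervalIntegral.integral_mul_deriv_eq_deriv_mul
      (a := 0) (b := Real.pi) (u := deriv g) (v := fun x => (1 / a) * Real.sin (a * x))
      (u' := deriv (deriv g)) (v' := fun x => Real.cos (a * x))
      (fun x _ => smh (smd hg) x)
      (fun x _ => by
        have := ((Real.hasDerivAt_sin (a * x)).comp x ((hasDerivAt_id x).const_mul a)).const_mul (1 / a)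
        simpa [ha, Function.comp_def, mul_comm, mul_assoc, mul_left_comm] using this)
      ((smc (smd (smd hg))).intervalIntegrable _ _)
      ((Real.continuous_cos.comp (continuous_const.mul continuous_id)).intervalIntegrable _ _)
    rw [hp, smz (smd hg) (by simp), smz (smd hg) (by simp), sm, ← intervalIntegral.integral_const_mul]
    simp only [zero_mul, sub_zero, zero_sub]
    rw [← intervalIntegral.integral_neg]
    congr 1; ext x; ring
  have hp := intervalIntegral.integral_mul_deriv_eq_deriv_mul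
      (a := 0) (b := Real.pi) (u := g) (v := fun x => -(1 / a) * Real.cos (a * x))
      (u' := deriv g) (v' := fun x => Real.sin (a * x))
      (fun x _ => smh hg x)
      (fun x _ => by
        have := ((Real.hasDerivAt_cos (a * x)).comp x ((hasDerivAt_id x).const_mul a)).const_mul (-(1 / a))
        simpa [ha, Function.comp_def, mul_comm, mul_assoc, mul_left_comm] using this)
      ((smc (smd hg)).intervalIntegrable _ _)
      ((Real.continuous_sin.comp (continuous_const.mul continuous_id)).intervalIntegrable _ _)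
  rw [sm, hp, smz hg (by simp), smz hg (by simp)]
  simp only [zero_mul, sub_zero, zero_sub]
  rw [← intervalIntegral.integral_neg]
  have : ∀ x, -(deriv g x * (-(1 / a) * Real.cos (a * x))) = (1 / a) * (deriv g x * Real.cos (a * x)) :=
    fun x => by ring
  simp_rw [this]
  rw [intervalIntegral.integral_const_mul, h1]
  field_simp

theorem sm_le {g : ℝ → ℝ} (hg : Continuous g) : ∃ C : ℝ, 0 ≤ C ∧ ∀ a, |sm g a| ≤ C := by
  refine ⟨∫ x in (0:ℝ)..Real.pi, |g x|, intervalIntegral.integral_nonneg Real.pi_pos.le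
    (fun _ _ => abs_nonneg _), fun a => ?_⟩
  rw [sm]
  refine (intervalIntegral.abs_integral_le_integral_abs Real.pi_pos.le).trans ?_
  refine intervalIntegral.integral_mono_on Real.pi_pos.le ?_ ?_ ?_
  · exact ((hg.mul (Real.continuous_sin.comp (continuous_const.mul continuous_id))).abs).intervalIntegrable _ _
  · exact hg.abs.intervalIntegrable _ _
  · intro x _
    rw [abs_mul]
    exact mul_le_of_le_one_right (abs_nonneg _) (Real.abs_sin_le_one _)

theorem summable_sc {g : ℝ → ℝ} (hg : Sm Real.pi g) : Summable (fun n => |sc g n|) := by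
  obtain ⟨C, hC0, hC⟩ := sm_le (smc (smd (smd hg)))
  have hs : Summable (fun n : ℕ => C * (1 / ((n : ℝ) + 1) ^ 2)) := by
    refine Summable.mul_left C ?_
    have := (summable_nat_add_iff 1).mpr (Real.summable_one_div_nat_pow.mpr (by norm_num : 1 < 2))
    simpa using this
  refine Summable.of_nonneg_of_le (fun n => abs_nonneg _) (fun n => ?_) hs
  have hn : ((n : ℝ) + 1) ≠ 0 := by positivity
  rw [sc_eq, sm_parts hg hn, abs_mul, abs_neg, abs_of_nonneg (by positivity), mul_comm]
  exact mul_le_mul_of_nonneg_right (hC _) (by positivity)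

/-- the odd extension -/
noncomputable def od (g : ℝ → ℝ) (x : ℝ) : ℂ := ((g x - g (-x) : ℝ) : ℂ)

theorem od_cont {g : ℝ → ℝ} (hg : Continuous g) : Continuous (od g) :=
  Complex.continuous_ofReal.comp (hg.sub (hg.comp continuous_neg))

instance fact2pi : Fact (0 < 2 * Real.pi) := ⟨Real.two_pi_pos⟩

/-- the odd extension on the circle -/
noncomputable def cir (g : ℝ → ℝ) : AddCircle (2 * Real.pi) → ℂ :=
  AddCircle.liftIco (2 * Real.pi) (-Real.pi) (od g)

theorem cir_cont {g : ℝ → ℝ} (hg : Sm Real.pi g) : Continuous (cir g) := by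
  refine AddCircle.liftIco_continuous ?_ (od_cont (smc hg)).continuousOn
  have h1 : g (-Real.pi) = 0 := smz hg (fun h => by have := h.1; linarith [Real.pi_pos])
  have h2 : g Real.pi = 0 := smz hg (by simp)
  have h3 : -Real.pi + 2 * Real.pi = Real.pi := by ring
  rw [h3]
  simp [od, h1, h2]

theorem cir_coeff {g : ℝ → ℝ} (hg : Sm Real.pi g) (n : ℤ) :
    fourierCoeff (cir g) n = -(Complex.I / Real.pi) * (sm g n : ℂ) := by
  have h3 : -Real.pi + 2 * Real.pi = Real.pi := by ring
  rw [fourierCoeff_eq_intervalIntegral _ _ (-Real.pi), h3]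
  have hE : ∀ x : ℝ, (fourier (-n) (x : AddCircle (2 * Real.pi)) : ℂ) =
      Complex.exp (-(n * x : ℝ) * Complex.I) := by
    intro x
    rw [fourier_coe_apply]
    congr 1
    have : (Real.pi : ℂ) ≠ 0 := by exact_mod_cast Real.pi_ne_zero
    push_cast
    field_simp
  have h4 : ∫ x in (-Real.pi)..Real.pi, (fourier (-n) (x : AddCircle (2 * Real.pi)) : ℂ) • cir g x =
      ∫ x in (-Real.pi)..Real.pi, Complex.exp (-(n * x : ℝ) * Complex.I) * od g x := by
    have hle : -Real.pi ≤ Real.pi := by linarith [Real.pi_pos]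
    refine intervalIntegral.integral_congr_Ioo_of_le hle (fun x hx => ?_)
    have hx' : x ∈ Set.Ico (-Real.pi) (-Real.pi + 2 * Real.pi) := by rw [h3]; exact ⟨hx.1.le, hx.2⟩
    simp only [smul_eq_mul]
    rw [hE x, cir, AddCircle.liftIco_coe_apply hx']
  rw [h4]
  have hc1 : Continuous fun x : ℝ => Complex.exp (-(n * x : ℝ) * Complex.I) * ((g x : ℝ) : ℂ) := by
    have := smc hg
    fun_prop
  have hc2 : Continuous fun x : ℝ => Complex.exp (-(n * x : ℝ) * Complex.I) * ((g (-x) : ℝ) : ℂ) := by
    have := smc hg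
    fun_prop
  have h5 : ∫ x in (-Real.pi)..Real.pi, Complex.exp (-(n * x : ℝ) * Complex.I) * od g x =
      (∫ x in (-Real.pi)..Real.pi, Complex.exp (-(n * x : ℝ) * Complex.I) * ((g x : ℝ) : ℂ)) -
      ∫ x in (-Real.pi)..Real.pi, Complex.exp (-(n * x : ℝ) * Complex.I) * ((g (-x) : ℝ) : ℂ) := by
    rw [← intervalIntegral.integral_sub (hc1.intervalIntegrable _ _) (hc2.intervalIntegrable _ _)]
    congr 1; ext x; simp only [od]; push_cast; ring
  have h6 : ∫ x in (-Real.pi)..Real.pi, Complex.exp (-(n * x : ℝ) * Complex.I) * ((g (-x) : ℝ) : ℂ) =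
      ∫ x in (-Real.pi)..Real.pi, Complex.exp ((n * x : ℝ) * Complex.I) * ((g x : ℝ) : ℂ) := by
    have := intervalIntegral.integral_comp_neg (a := -Real.pi) (b := Real.pi)
      (fun x : ℝ => Complex.exp ((n * x : ℝ) * Complex.I) * ((g x : ℝ) : ℂ))
    rw [neg_neg] at this
    rw [← this]
    congr 1; ext x
    congr 2
    push_cast; ring
  have hc3 : Continuous fun x : ℝ => Complex.exp ((n * x : ℝ) * Complex.I) * ((g x : ℝ) : ℂ) := by
    have := smc hg
    fun_prop
  rw [h5, h6, ← intervalIntegral.integral_sub (hc1.intervalIntegrable _ _) (hc3.intervalIntegrable _ _)]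
  have h7 : ∀ x : ℝ, Complex.exp (-(n * x : ℝ) * Complex.I) * ((g x : ℝ) : ℂ) -
      Complex.exp ((n * x : ℝ) * Complex.I) * ((g x : ℝ) : ℂ) =
      (-2 * Complex.I) * ((g x * Real.sin (n * x) : ℝ) : ℂ) := by
    intro x
    have e1 := Complex.exp_mul_I ((n * x : ℝ) : ℂ)
    have e2 := Complex.exp_mul_I (-((n * x : ℝ) : ℂ))
    rw [e1, e2, Complex.cos_neg, Complex.sin_neg]
    push_cast
    ring
  simp_rw [h7]
  rw [intervalIntegral.integral_const_mul]
  have h8 : ∫ x in (-Real.pi)..Real.pi, ((g x * Real.sin (n * x) : ℝ) : ℂ) = (sm g n : ℂ) := by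
    rw [intervalIntegral.integral_ofReal, sm]
    congr 1
    have hc4 : Continuous fun x : ℝ => g x * Real.sin (n * x) := by
      have := smc hg
      fun_prop
    rw [← intervalIntegral.integral_add_adjacent_intervals (b := 0) (hc4.intervalIntegrable _ _)
      (hc4.intervalIntegrable _ _)]
    have : ∫ x in (-Real.pi)..0, g x * Real.sin (n * x) = ∫ x in (-Real.pi)..0, (0 : ℝ) := by
      refine intervalIntegral.integral_congr (fun x hx => ?_)
      rw [Set.uIcc_of_le (by linarith [Real.pi_pos])] at hx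
      have : g x = 0 := smz hg (fun h => by linarith [h.1, hx.2])
      simp [this]
    rw [this]
    simp
  rw [h8]
  have : (Real.pi : ℂ) ≠ 0 := by exact_mod_cast Real.pi_ne_zero
  rw [Complex.real_smul]
  push_cast
  field_simp

theorem summable_cir {g : ℝ → ℝ} (hg : Sm Real.pi g) : Summable (fourierCoeff (cir g)) := by
  have key : Summable (fun n : ℤ => ‖fourierCoeff (cir g) n‖) := by
    have hpi : 0 < Real.pi := Real.pi_pos
    have hn : ∀ n : ℤ, ‖fourierCoeff (cir g) n‖ = (1 / Real.pi) * |sm g n| := by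
      intro n
      rw [cir_coeff hg, norm_mul, norm_neg, norm_div, Complex.norm_I, Complex.norm_real,
        Complex.norm_real, Real.norm_eq_abs, abs_of_pos hpi, Real.norm_eq_abs]
    simp_rw [hn]
    refine Summable.mul_left _ ?_
    have h1 : Summable (fun n : ℕ => |sm g ((n : ℤ) : ℝ)|) := by
      rw [← summable_nat_add_iff 1]
      have := summable_sc hg
      refine this.congr (fun n => ?_)
      rw [sc_eq]; push_cast; rfl
    refine Summable.of_nat_of_neg (f := fun n : ℤ => |sm g (n : ℝ)|) h1 ?_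
    refine h1.congr (fun n => ?_)
    push_cast
    rw [sm_neg, abs_neg]
  exact key.of_norm

theorem sine : T_sine := by
  intro g hg
  refine ⟨summable_sc hg, fun x hx => ?_⟩
  have h := has_pointwise_sum_fourier_series_of_summable
    (f := ⟨cir g, cir_cont hg⟩) (summable_cir hg) (x : AddCircle (2 * Real.pi))
  have hval : (⟨cir g, cir_cont hg⟩ : C(AddCircle (2 * Real.pi), ℂ)) (x : AddCircle (2 * Real.pi))
      = (g x : ℂ) := by
    have hx' : x ∈ Set.Ico (-Real.pi) (-Real.pi + 2 * Real.pi) := by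
      constructor <;> linarith [hx.1, hx.2, Real.pi_pos]
    have h0 : g (-x) = 0 := smz hg (fun h => by linarith [h.1, hx.1])
    simp only [ContinuousMap.coe_mk]
    rw [cir, AddCircle.liftIco_coe_apply hx', od, h0, sub_zero]
  rw [hval] at h
  have h2 := h.nat_add_neg
  have hE : ∀ n : ℤ, (fourier n (x : AddCircle (2 * Real.pi)) : ℂ) =
      Complex.exp ((n * x : ℝ) * Complex.I) := by
    intro n
    rw [fourier_coe_apply]
    congr 1
    have : (Real.pi : ℂ) ≠ 0 := by exact_mod_cast Real.pi_ne_zero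
    push_cast
    field_simp
  have hterm : ∀ n : ℕ, fourierCoeff (cir g) (n : ℤ) • (fourier (n : ℤ) (x : AddCircle (2 * Real.pi)) : ℂ)
      + fourierCoeff (cir g) (-(n : ℤ)) • (fourier (-(n : ℤ)) (x : AddCircle (2 * Real.pi)) : ℂ) =
      (((2 / Real.pi) * sm g n * Real.sin (n * x) : ℝ) : ℂ) := by
    intro n
    rw [cir_coeff hg, cir_coeff hg, hE, hE]
    have e0 : sm g ((-(n : ℤ) : ℤ) : ℝ) = - sm g (n : ℝ) := by
      push_cast; exact sm_neg _ _
    rw [e0]
    have e3 : (((-(n : ℤ) : ℤ) : ℝ) * x) = -((n : ℝ) * x) := by push_cast; ring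
    rw [e3]
    have e1 := Complex.exp_mul_I (((n : ℝ) * x : ℝ) : ℂ)
    have e2 := Complex.exp_mul_I (((-((n : ℝ) * x) : ℝ)) : ℂ)
    push_cast at e1 e2 ⊢
    rw [e1, e2, Complex.cos_neg, Complex.sin_neg]
    have hI : Complex.I ^ 2 = -1 := Complex.I_sq
    simp only [smul_eq_mul]
    have : (Real.pi : ℂ) ≠ 0 := by exact_mod_cast Real.pi_ne_zero
    field_simp
    ring_nf
    rw [hI]
    ring
  simp only [ContinuousMap.coe_mk] at h2
  have h0 : fourierCoeff (cir g) 0 = 0 := by
    rw [cir_coeff hg]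
    simp [sm]
  have h3 : HasSum (fun n : ℕ => (((2 / Real.pi) * sm g n * Real.sin (n * x) : ℝ) : ℂ)) (g x : ℂ) := by
    rw [h0, zero_smul, add_zero] at h2
    have := h2
    simp_rw [hterm] at this
    exact this
  have h4 : HasSum (fun n : ℕ => (2 / Real.pi) * sm g n * Real.sin (n * x)) (g x) := by
    exact_mod_cast Complex.hasSum_ofReal.mp h3
  have h5 := (hasSum_nat_add_iff' 1).mpr h4
  simp only [Finset.range_one, Finset.sum_singleton, Nat.cast_zero, zero_mul, Real.sin_zero,
    mul_zero, sub_zero] at h5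
  rw [← h5.tsum_eq]
  congr 1; ext n
  rw [sc_eq]
  push_cast
  rfl

end Pool.Agent.H30.VM
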